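import Pool.Agent.H.MP_82f784_co.A

namespace Pool.Agent.Results.MP_82f784_co.Seven

open SimpleGraph

variable {V : Type} [DecidableEq V]

/-- every vertex outside `D` has a neighbour in `D` -/
def Dominating (G : SimpleGraph V) (D : Finset V) : Prop := ∀ v, v ∉ D → ∃ u ∈ D, G.Adj v u

/-- secure dominating sets -/
def Secure (G : SimpleGraph V) (S : Finset V) : Prop :=
  Dominating G S ∧ ∀ v, v ∉ S → ∃ u ∈ S, G.Adj v u ∧ Dominating G (insert v (S.erase u))

/-- the secure domination number -/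
noncomputable def gammaS (G : SimpleGraph V) : ℕ := sInf {k | ∃ S, Secure G S ∧ S.card = k}

open H.MP_82f784_co

def G : SimpleGraph H.MP_82f784_co.V where
  Adj x y := x ≠ y ∧ ¬ h x y
  symm := ⟨fun _ _ e => ⟨e.1.symm, fun k => e.2 (h_symm k)⟩⟩
  loopless := ⟨fun _ e => e.1 rfl⟩

lemma nd {D : Finset H.MP_82f784_co.V} (hD : Dominating G D) {a b c d : H.MP_82f784_co.V}
    (hs : ∀ x ∈ D, x = a ∨ x = b ∨ x = c ∨ x = d) : ¬ C4 a b c d := by
  rintro ⟨w, h1, h2, h3, h4⟩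
  have k : ∀ x ∈ D, h x w := fun x hx => by rcases hs x hx with rfl | rfl | rfl | rfl <;> assumption
  obtain ⟨u, hu, e⟩ := hD w fun e => h_irr w (k w e)
  exact e.2 (h_symm (k u hu))

lemma al : G.indepNum ≤ 3 := by
  obtain ⟨s, hs⟩ := G.exists_isNIndepSet_indepNum
  by_contra k
  obtain ⟨t, ht, e⟩ := Finset.exists_subset_card_eq (s := s) (n := 4) (by rw [hs.2]; omega)
  obtain ⟨a, b, c, d, h1, h2, h3, h4, h5, h6, rfl⟩ := Finset.card_eq_four.1 e
  have q : ∀ x ∈ ({a, b, c, d} : Finset _), ∀ y ∈ ({a, b, c, d} : Finset _), x ≠ y → h x y :=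
    fun x hx y hy n => by
      by_contra m
      exact hs.1 (ht hx) (ht hy) n ⟨n, m⟩
  exact noK4 (q a (by simp) b (by simp) h1) (q a (by simp) c (by simp) h2)
    (q a (by simp) d (by simp) h3) (q b (by simp) c (by simp) h4) (q b (by simp) d (by simp) h5)
    (q c (by simp) d (by simp) h6)

lemma ga : 5 ≤ gammaS G := by
  obtain ⟨S, ⟨h0, hS⟩, e⟩ := Nat.sInf_mem (s := {k | ∃ S, Secure G S ∧ S.card = k})
    ⟨_, Finset.univ, ⟨fun v e => by simp at e, fun v e => by simp at e⟩, rfl⟩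
  by_contra k
  obtain ⟨t, ht, -, e⟩ := Finset.exists_subsuperset_card_eq (n := 4) (Finset.subset_univ S)
    (by unfold gammaS at k; omega) (by simp)
  obtain ⟨a, b, c, d, h1, h2, h3, h4, h5, h6, rfl⟩ := Finset.card_eq_four.1 e
  have m : ∀ x ∈ S, x = a ∨ x = b ∨ x = c ∨ x = d := fun x hx => by simpa using ht hx
  rcases allK h1 h2 h3 h4 h5 h6 with k | ⟨v, hv, k1, k2, k3, k4⟩
  · exact nd h0 m k
  · obtain ⟨u, hu, e1, e2⟩ := hS v fun e => by have := m v e; tauto
    have n : ∀ x ∈ insert v (S.erase u), x = v ∨ (x ≠ u ∧ (x = a ∨ x = b ∨ x = c ∨ x = d)) :=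
      fun x hx => (Finset.mem_insert.1 hx).imp id fun e =>
        ⟨(Finset.mem_erase.1 e).1, m x (Finset.mem_erase.1 e).2⟩
    have p : ¬ h u v := fun e => e1.2 (h_symm e)
    rcases m u hu with rfl | rfl | rfl | rfl
    · exact nd e2 (fun x hx => by have := n x hx; tauto) (k1.resolve_left p)
    · exact nd e2 (fun x hx => by have := n x hx; tauto) (k2.resolve_left p)
    · exact nd e2 (fun x hx => by have := n x hx; tauto) (k3.resolve_left p)
    · exact nd e2 (fun x hx => by have := n x hx; tauto) (k4.resolve_left p)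

theorem result (t : ℕ) (ht : 7 ≤ t) : ∃ (V : Type) (_ : Fintype V) (_ : DecidableEq V)
    (G : SimpleGraph V), IsEmpty (pathGraph t ↪g G) ∧ 3 * G.indepNum < 2 * gammaS G := by
  refine ⟨_, inferInstance, inferInstance, G, ⟨fun f => ?_⟩, by have := al; have := ga; omega⟩
  have q : ∀ i j : Fin t, i.val + 1 < j.val → h (f i) (f j) := fun i j e => by
    by_contra m
    have := pathGraph_adj.1 (f.map_rel_iff.1 ⟨f.injective.ne (by rintro rfl; omega), m⟩)
    omega
  exact noK4 (q ⟨0, by omega⟩ ⟨2, by omega⟩ (by simp)) (q ⟨0, by omega⟩ ⟨4, by omega⟩ (by simp))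
    (q ⟨0, by omega⟩ ⟨6, by omega⟩ (by simp)) (q ⟨2, by omega⟩ ⟨4, by omega⟩ (by simp))
    (q ⟨2, by omega⟩ ⟨6, by omega⟩ (by simp)) (q ⟨4, by omega⟩ ⟨6, by omega⟩ (by simp))

end Pool.Agent.Results.MP_82f784_co.Seven
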